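import Pool.Agent.W2helper38.AC.Stm

/-!
Pieces D0, D1, D2 of the project AC of helper38 (MP_28b04d_gt).
-/

set_option autoImplicit false

open Set Filter Topology Metric
open scoped ContDiff

namespace Pool.Agent.W2helper33.AC

open Pool.Agent.W2helper38.AC

/-- an injective endomorphism is an equivalence -/
theorem equiv_of_inj {E : Type} [NormedAddCommGroup E] [NormedSpace ℝ E] [FiniteDimensional ℝ E]
    (f : E →L[ℝ] E) (h : ∀ v, f v = 0 → v = 0) : ∃ e : E ≃L[ℝ] E, (e : E →L[ℝ] E) = f := by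
  have hinj : Function.Injective f.toLinearMap := by
    rw [← LinearMap.ker_eq_bot, LinearMap.ker_eq_bot']
    exact h
  refine ⟨(LinearEquiv.ofInjectiveEndo f.toLinearMap hinj).toContinuousLinearEquiv, ?_⟩
  ext v
  rfl

/-- the inverse function theorem for maps with injective derivative -/
theorem ift {E : Type} [NormedAddCommGroup E] [NormedSpace ℝ E] [FiniteDimensional ℝ E]
    {f : E → E} {a : E} (hf : ContDiffAt ℝ ∞ f a) (h : ∀ v, fderiv ℝ f a v = 0 → v = 0) :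
    (∃ U ∈ 𝓝 a, InjOn f U) ∧ (∀ U ∈ 𝓝 a, f '' U ∈ 𝓝 (f a)) ∧
      ∃ g : E → E, ContDiffAt ℝ ∞ g (f a) ∧ g (f a) = a ∧ ∀ᶠ u in 𝓝 (f a), f (g u) = u := by
  have : CompleteSpace E := FiniteDimensional.complete ℝ E
  obtain ⟨e, he⟩ := equiv_of_inj _ h
  have hn : (∞ : WithTop ℕ∞) ≠ 0 := by simp
  have hd : HasFDerivAt f (e : E →L[ℝ] E) a := by
    rw [he]
    exact (hf.differentiableAt hn).hasFDerivAt
  have hs := hf.hasStrictFDerivAt' hd hn
  refine ⟨?_, ?_, hf.localInverse hd hn, hf.to_localInverse hd hn,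
    hf.localInverse_apply_image hd hn, hs.eventually_right_inverse⟩
  · exact ⟨(hs.toOpenPartialHomeomorph f).source,
      (hs.toOpenPartialHomeomorph f).open_source.mem_nhds hs.mem_toOpenPartialHomeomorph_source,
      (hs.toOpenPartialHomeomorph f).injOn⟩
  · intro U hU
    rw [← hs.map_nhds_eq_of_equiv]
    exact image_mem_map hU

section

variable {W : Type} [NormedAddCommGroup W] [NormedSpace ℝ W] {m : ℝ × W → W}

omit [NormedSpace ℝ W] in
theorem mem_nhds_ne {t : ℝ} {z : W} (hz : z ≠ 0) : {q : ℝ × W | q.2 ≠ 0} ∈ 𝓝 (t, z) :=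
  (isOpen_ne.preimage continuous_snd).mem_nhds hz

theorem cda (h : Path W m) (t : ℝ) {z : W} (hz : z ≠ 0) : ContDiffAt ℝ ∞ m (t, z) :=
  (h.smooth (t, z) hz).contDiffAt (mem_nhds_ne hz)

theorem cts (h : Path W m) (t : ℝ) {z : W} (hz : z ≠ 0) : ContinuousAt m (t, z) :=
  (cda h t hz).continuousAt

theorem fder (h : Path W m) (t : ℝ) {z : W} (hz : z ≠ 0) (ζ : W) :
    fderiv ℝ (fun v : W => m (t, v)) z ζ = fderiv ℝ m (t, z) (0, ζ) := by
  have h1 : HasFDerivAt m (fderiv ℝ m (t, z)) (t, z) :=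
    ((cda h t hz).differentiableAt (by simp)).hasFDerivAt
  have h2 : HasFDerivAt (fun v : W => ((t, v) : ℝ × W)) (ContinuousLinearMap.inr ℝ ℝ W) z :=
    hasFDerivAt_prodMk_right t z
  have h3 := (h1.comp z h2).fderiv
  have h4 : (m ∘ fun v : W => ((t, v) : ℝ × W)) = fun v : W => m (t, v) := rfl
  rw [h4] at h3
  rw [h3]
  rfl

end

theorem piece_D0 : StmD0 := by
  intro W _ _ _ m hm t ht z hz
  have hc : ContDiffAt ℝ ∞ (fun q : ℝ × W => (q.1, m q)) (t, z) :=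
    contDiffAt_fst.prodMk (cda hm t hz)
  have h1 : HasFDerivAt m (fderiv ℝ m (t, z)) (t, z) :=
    ((cda hm t hz).differentiableAt (by simp)).hasFDerivAt
  have h2 : HasFDerivAt (fun q : ℝ × W => (q.1, m q))
      ((ContinuousLinearMap.fst ℝ ℝ W).prod (fderiv ℝ m (t, z))) (t, z) :=
    hasFDerivAt_fst.prodMk h1
  obtain ⟨i1, i2, -⟩ := ift hc (by
    intro v hv
    rw [h2.fderiv] at hv
    have e1 : v.1 = 0 := congrArg Prod.fst hv
    have e2 : fderiv ℝ m (t, z) v = 0 := congrArg Prod.snd hv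
    have e3 : v = (0, v.2) := Prod.ext e1 rfl
    rw [e3, ← fder hm t hz] at e2
    have e4 := hm.imm t ht z hz _ e2
    exact Prod.ext e1 e4)
  have hc2 : ContDiffAt ℝ ∞ (fun v : W => m (t, v)) z := by
    have h3 : ContDiffAt ℝ ∞ (fun v : W => ((t, v) : ℝ × W)) z :=
      contDiffAt_const.prodMk contDiffAt_id
    exact (cda hm t hz).comp z h3
  obtain ⟨-, -, i3⟩ := ift hc2 (fun v hv => hm.imm t ht z hz v hv)
  exact ⟨i1, i2, i3⟩

section

variable {W : Type} [NormedAddCommGroup W] [NormedSpace ℝ W] [FiniteDimensional ℝ W]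
  {m : ℝ × W → W}

/-- the two bounds -/
theorem bounds (h : Path W m) : ∃ a b : ℝ, 0 < a ∧ 0 < b ∧ ∀ t ∈ Icc (0 : ℝ) 1, ∀ z : W, z ≠ 0 →
    a * ‖z‖ ≤ ‖m (t, z)‖ ∧ ‖m (t, z)‖ ≤ b * ‖z‖ := by
  have : ProperSpace W := FiniteDimensional.proper ℝ W
  by_cases hW : ∃ z₀ : W, z₀ ≠ 0
  swap
  · refine ⟨1, 1, one_pos, one_pos, fun t _ z hz => absurd ⟨z, hz⟩ hW⟩
  obtain ⟨z₀, hz₀⟩ := hW
  set K : Set (ℝ × W) := Icc (0 : ℝ) 1 ×ˢ sphere (0 : W) 1 with hK
  have hKc : IsCompact K := isCompact_Icc.prod (isCompact_sphere 0 1)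
  have hne : ∀ q ∈ K, q.2 ≠ 0 := by
    rintro ⟨t, z⟩ ⟨-, hz⟩ h0
    simp only at h0
    rw [h0, mem_sphere, dist_self] at hz
    exact zero_ne_one hz
  have hKn : K.Nonempty := by
    refine ⟨(0, ‖z₀‖⁻¹ • z₀), ⟨⟨le_rfl, zero_le_one⟩, ?_⟩⟩
    rw [mem_sphere_zero_iff_norm, norm_smul, norm_inv, norm_norm,
      inv_mul_cancel₀ (norm_ne_zero_iff.2 hz₀)]
  have hcont : ContinuousOn (fun q => ‖m q‖) K := fun q hq =>
    ((cts h q.1 (hne q hq)).norm).continuousWithinAt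
  obtain ⟨q₁, hq₁, h1⟩ := hKc.exists_isMinOn hKn hcont
  obtain ⟨q₂, hq₂, h2⟩ := hKc.exists_isMaxOn hKn hcont
  have ha : 0 < ‖m q₁‖ := norm_pos_iff.2 (h.ne q₁.1 hq₁.1 q₁.2 (hne q₁ hq₁))
  have hb : 0 < ‖m q₂‖ := norm_pos_iff.2 (h.ne q₂.1 hq₂.1 q₂.2 (hne q₂ hq₂))
  refine ⟨‖m q₁‖, ‖m q₂‖, ha, hb, fun t ht z hz => ?_⟩
  have hz' : 0 < ‖z‖ := norm_pos_iff.2 hz
  have hmem : (t, ‖z‖⁻¹ • z) ∈ K := by
    refine ⟨ht, ?_⟩
    rw [mem_sphere_zero_iff_norm, norm_smul, norm_inv, norm_norm, inv_mul_cancel₀ hz'.ne']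
  have e1 : m (t, z) = ‖z‖ • m (t, ‖z‖⁻¹ • z) := by
    rw [← h.hom t _ _ hz', smul_smul, mul_inv_cancel₀ hz'.ne', one_smul]
  have e2 : ‖m (t, z)‖ = ‖z‖ * ‖m (t, ‖z‖⁻¹ • z)‖ := by
    rw [e1, norm_smul, norm_norm]
  have h3 : ‖m q₁‖ ≤ ‖m (t, ‖z‖⁻¹ • z)‖ := h1 hmem
  have h4 : ‖m (t, ‖z‖⁻¹ • z)‖ ≤ ‖m q₂‖ := h2 hmem
  rw [e2]
  constructor
  · nlinarith
  · nlinarith

/-- near `(t, z)`, over times `t'` near `t` -/
theorem time_nhds (h0 : StmD0) (h : Path W m) {t : ℝ} (ht : t ∈ Icc (0 : ℝ) 1) {z : W}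
    (hz : z ≠ 0) {V : Set W} (hV : V ∈ 𝓝 z) :
    ∀ᶠ t' in 𝓝 t, ∃ v ∈ V, v ≠ 0 ∧ m (t', v) = m (t, z) := by
  obtain ⟨-, h2, -⟩ := h0 W m h t ht z hz
  have hU : {q : ℝ × W | q.2 ∈ V ∧ q.2 ≠ 0} ∈ 𝓝 (t, z) := by
    refine inter_mem ?_ (mem_nhds_ne hz)
    exact continuous_snd.continuousAt hV
  have h3 := h2 _ hU
  have h4 : Tendsto (fun t' : ℝ => (t', m (t, z))) (𝓝 t) (𝓝 (t, m (t, z))) :=
    (Continuous.prodMk_left _).continuousAt
  filter_upwards [h4 h3] with t' ht'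
  obtain ⟨⟨s, v⟩, ⟨hv1, hv2⟩, hv3⟩ := ht'
  have e1 : s = t' := congrArg Prod.fst hv3
  have e2 : m (s, v) = m (t, z) := congrArg Prod.snd hv3
  subst e1
  exact ⟨v, hv1, hv2, e2⟩

end

theorem piece_D1 : StmD0 → StmD1 := by
  intro h0 W _ _ _ m hm
  have hprop : ProperSpace W := FiniteDimensional.proper ℝ W
  obtain ⟨a, b, ha, hb, hab⟩ := bounds hm
  set S : Set ℝ := {t | ∀ z z' : W, z ≠ 0 → z' ≠ 0 → m (t, z) = m (t, z') → z = z'} with hS
  have key : Icc (0 : ℝ) 1 ⊆ S := by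
    refine IsClosed.Icc_subset_of_forall_mem_nhdsWithin ?_ ?_ ?_
    · -- closed
      refine isClosed_of_closure_subset fun t ht => ?_
      have htI : t ∈ Icc (0 : ℝ) 1 :=
        (isClosed_Icc.closure_subset_iff.2 inter_subset_right) ht
      refine ⟨?_, htI⟩
      by_contra hcon
      have hcon' : ∃ z z' : W, z ≠ 0 ∧ z' ≠ 0 ∧ m (t, z) = m (t, z') ∧ z ≠ z' := by
        by_contra h1
        refine hcon fun z z' hz hz' he => ?_
        by_contra h2
        exact h1 ⟨z, z', hz, hz', he, h2⟩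
      obtain ⟨z, z', hz, hz', he, hne⟩ := hcon'
      obtain ⟨V, V', hV, hV', hzV, hzV', hd⟩ := t2_separation hne
      have h1 := time_nhds h0 hm htI hz (hV.mem_nhds hzV)
      have h2 := time_nhds h0 hm htI hz' (hV'.mem_nhds hzV')
      have h3 : ∃ᶠ t' in 𝓝 t, t' ∈ S ∩ Icc (0 : ℝ) 1 := mem_closure_iff_frequently.1 ht
      obtain ⟨t', ⟨h4, -⟩, ⟨v, hv, hv0, hv1⟩, ⟨v', hv', hv0', hv1'⟩⟩ :=
        (h3.and_eventually (h1.and h2)).exists
      have h5 := h4 v v' hv0 hv0' (by rw [hv1, hv1', he])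
      exact Set.disjoint_left.1 hd hv (h5 ▸ hv')
    · exact hm.inj0
    · rintro t ⟨htS, ht0, ht1⟩
      have htI : t ∈ Icc (0 : ℝ) 1 := ⟨ht0, ht1.le⟩
      set K : Set (W × W) := sphere (0 : W) 1 ×ˢ (closedBall (0 : W) (b / a) \ ball (0 : W) (a / b))
        with hK
      have hKc : IsCompact K :=
        (isCompact_sphere 0 1).prod ((isCompact_closedBall 0 _).diff isOpen_ball)
      have hK1 : ∀ y ∈ K, y.1 ≠ 0 := by
        rintro ⟨z, z'⟩ ⟨hz, -⟩ hz0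
        simp only at hz0
        rw [hz0, mem_sphere, dist_self] at hz
        exact zero_ne_one hz
      have hK2 : ∀ y ∈ K, y.2 ≠ 0 := by
        rintro ⟨z, z'⟩ ⟨-, -, hz⟩ hz0
        simp only at hz0
        rw [hz0] at hz
        exact hz (mem_ball_self (div_pos ha hb))
      have hev : ∀ᶠ t' in 𝓝 t, ∀ y ∈ K, m (t', y.1) = m (t', y.2) → y.1 = y.2 := by
        refine hKc.eventually_forall_of_forall_eventually (P := fun (t' : ℝ) (y : W × W) =>
          m (t', y.1) = m (t', y.2) → y.1 = y.2) ?_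
        rintro ⟨z, z'⟩ hy
        have hz : z ≠ 0 := hK1 _ hy
        have hz' : z' ≠ 0 := hK2 _ hy
        have c1 : Tendsto (fun q : ℝ × (W × W) => ((q.1, q.2.1) : ℝ × W)) (𝓝 (t, (z, z')))
            (𝓝 (t, z)) := by
          have : Continuous fun q : ℝ × (W × W) => ((q.1, q.2.1) : ℝ × W) := by fun_prop
          exact this.continuousAt
        have c2 : Tendsto (fun q : ℝ × (W × W) => ((q.1, q.2.2) : ℝ × W)) (𝓝 (t, (z, z')))
            (𝓝 (t, z')) := by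
          have : Continuous fun q : ℝ × (W × W) => ((q.1, q.2.2) : ℝ × W) := by fun_prop
          exact this.continuousAt
        by_cases he : m (t, z) = m (t, z')
        · have hzz : z = z' := htS z z' hz hz' he
          obtain ⟨⟨U, hU, hinj⟩, -, -⟩ := h0 W m hm t htI z hz
          have c3 := c1 hU
          have c4 := c2 (hzz ▸ hU)
          filter_upwards [c3, c4] with q h3 h4 h5
          have h6 : ((q.1, q.2.1) : ℝ × W) = (q.1, q.2.2) :=
            hinj h3 h4 (Prod.ext rfl h5)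
          exact congrArg Prod.snd h6
        · have c3 : Tendsto (fun q : ℝ × (W × W) => m (q.1, q.2.1)) (𝓝 (t, (z, z')))
              (𝓝 (m (t, z))) := (cts hm t hz).tendsto.comp c1
          have c4 : Tendsto (fun q : ℝ × (W × W) => m (q.1, q.2.2)) (𝓝 (t, (z, z')))
              (𝓝 (m (t, z'))) := (cts hm t hz').tendsto.comp c2
          have c5 : {p : W × W | p.1 ≠ p.2} ∈ 𝓝 (m (t, z), m (t, z')) :=
            (isOpen_ne_fun continuous_fst continuous_snd).mem_nhds he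
          filter_upwards [(c3.prodMk_nhds c4) c5] with q h3 h5
          exact absurd h5 h3
      have hev1 : ∀ᶠ t' in 𝓝[>] t, t' ∈ Icc (0 : ℝ) 1 := by
        filter_upwards [Ioc_mem_nhdsGT ht1] with t' ht'
        exact ⟨ht0.trans ht'.1.le, ht'.2⟩
      filter_upwards [hev.filter_mono nhdsWithin_le_nhds, hev1] with t' h1 h2
      intro z z' hz hz' he
      have hzp : 0 < ‖z‖ := norm_pos_iff.2 hz
      have hr : 0 < ‖z‖⁻¹ := inv_pos.2 hzp
      have hzr : ‖z‖⁻¹ • z ≠ 0 := smul_ne_zero hr.ne' hz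
      have hzr' : ‖z‖⁻¹ • z' ≠ 0 := smul_ne_zero hr.ne' hz'
      have hn1 : ‖‖z‖⁻¹ • z‖ = 1 := by
        rw [norm_smul, norm_inv, norm_norm, inv_mul_cancel₀ hzp.ne']
      have he' : m (t', ‖z‖⁻¹ • z) = m (t', ‖z‖⁻¹ • z') := by
        rw [hm.hom _ _ _ hr, hm.hom _ _ _ hr, he]
      obtain ⟨b1, b2⟩ := hab t' h2 _ hzr
      obtain ⟨b3, b4⟩ := hab t' h2 _ hzr'
      rw [hn1, mul_one] at b1 b2
      rw [← he'] at b3 b4
      have h3 := h1 (‖z‖⁻¹ • z, ‖z‖⁻¹ • z') ⟨mem_sphere_zero_iff_norm.2 hn1, by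
        rw [mem_closedBall_zero_iff, le_div_iff₀ ha]
        linarith [mul_comm a ‖‖z‖⁻¹ • z'‖], by
        rw [mem_ball_zero_iff, not_lt, div_le_iff₀ hb]
        linarith [mul_comm b ‖‖z‖⁻¹ • z'‖]⟩ he'
      exact smul_right_injective W hr.ne' h3
  exact fun t ht => key ht

theorem piece_D2 : StmD0 → StmD2 := by
  intro h0 W _ _ _ m hm t ht u hu
  have hprop : ProperSpace W := FiniteDimensional.proper ℝ W
  obtain ⟨a, b, ha, hb, hab⟩ := bounds hm
  set S : Set ℝ := {t | ∃ z : W, z ≠ 0 ∧ m (t, z) = u} with hS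
  have key : Icc (0 : ℝ) 1 ⊆ S := by
    refine IsClosed.Icc_subset_of_forall_mem_nhdsWithin ?_ ?_ ?_
    · refine isClosed_of_closure_subset fun t ht => ?_
      have htI : t ∈ Icc (0 : ℝ) 1 :=
        (isClosed_Icc.closure_subset_iff.2 inter_subset_right) ht
      refine ⟨?_, htI⟩
      by_contra hcon
      set K : Set W := closedBall (0 : W) (‖u‖ / a) \ ball (0 : W) (‖u‖ / b) with hK
      have hKc : IsCompact K := (isCompact_closedBall 0 _).diff isOpen_ball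
      have hup : 0 < ‖u‖ := norm_pos_iff.2 hu
      have hK1 : ∀ y ∈ K, y ≠ 0 := by
        rintro y ⟨-, hy⟩ hy0
        rw [hy0] at hy
        exact hy (mem_ball_self (div_pos hup hb))
      have hev : ∀ᶠ t' in 𝓝 t, ∀ y ∈ K, m (t', y) ≠ u := by
        refine hKc.eventually_forall_of_forall_eventually (P := fun (t' : ℝ) (y : W) =>
          m (t', y) ≠ u) ?_
        intro y hy
        have hne : m (t, y) ≠ u := fun h => hcon ⟨y, hK1 y hy, h⟩
        exact (cts hm t (hK1 y hy)).eventually_ne hne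
      have h3 : ∃ᶠ t' in 𝓝 t, t' ∈ S ∩ Icc (0 : ℝ) 1 := mem_closure_iff_frequently.1 ht
      obtain ⟨t', ⟨⟨z, hz, hzu⟩, ht'⟩, h4⟩ := (h3.and_eventually hev).exists
      obtain ⟨b1, b2⟩ := hab t' ht' z hz
      rw [hzu] at b1 b2
      refine h4 z ⟨?_, ?_⟩ hzu
      · rw [mem_closedBall_zero_iff, le_div_iff₀ ha]
        linarith [mul_comm a ‖z‖]
      · rw [mem_ball_zero_iff, not_lt, div_le_iff₀ hb]
        linarith [mul_comm b ‖z‖]
    · exact hm.surj0 u hu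
    · rintro t ⟨⟨z, hz, hzu⟩, ht0, ht1⟩
      have htI : t ∈ Icc (0 : ℝ) 1 := ⟨ht0, ht1.le⟩
      refine nhdsWithin_le_nhds ?_
      filter_upwards [time_nhds h0 hm htI hz univ_mem] with t' ht'
      obtain ⟨v, -, hv, hvu⟩ := ht'
      exact ⟨v, hv, hvu.trans hzu⟩
  exact key ht

end Pool.Agent.W2helper33.AC
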